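import Pool.Agent.Y117.LS.Qi

open UpperHalfPlane MeasureTheory Set
open scoped MatrixGroups Manifold ENNReal Topology

namespace Pool.Agent.Results.MP_731498_gt.NotQuasiLength

open Pool.Agent.LengthSpec Pool.Agent.Y117.LS

universe u v

/-- Let `S = ℍ/Γ` be a complete orientable hyperbolic surface of finite area having an essential
simple closed curve, and `a b < 2`. The Teichmüller space of `S` with the length-spectrum metric
`dL` is not quasi-isometric, with multiplicative constants `a` and `b` and any additive constant,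
to any length space. In particular no Finsler metric `δ` on Teichmüller space satisfies
`δ ≤ a dL + C` and `dL ≤ b δ + C`; for `a = b = 1`, `C = 0`: the metric `dL` is not Finsler. -/
theorem result (Γ : Subgroup SL(2, ℝ)) (hΓ : IsSurfaceGroup Γ) (hS : ∃ g : Γ, IsSimpleClosed Γ g)
    (a b C : ℝ) (ha : 0 ≤ a) (hb : 0 ≤ b) (hC : 0 ≤ C) (hab : a * b < 2) :
    (∀ (W : Type u) (δ : W → W → ℝ≥0∞), IsLengthMetric δ → ∀ f : Teich Γ → W,
      ¬ IsQuasiIsometry (dL Γ) δ a b C f) ∧
    ∀ (E : Type v) [NormedAddCommGroup E] [NormedSpace ℝ E] [TopologicalSpace (Teich Γ)]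
      [ChartedSpace E (Teich Γ)] [IsManifold 𝓘(ℝ, E) 1 (Teich Γ)] (δ : Teich Γ → Teich Γ → ℝ≥0∞),
      IsFinsler E δ → ¬ ((∀ X Y, δ X Y ≤ ENNReal.ofReal a * dL Γ X Y + ENNReal.ofReal C) ∧
        ∀ X Y, dL Γ X Y ≤ ENNReal.ofReal b * δ X Y + ENNReal.ofReal C) :=
  ⟨fun _ _ hδ f => not_quasiIsometry hΓ hS hδ ha hb hC hab f,
    fun E _ _ _ _ _ _ hδ h => not_finsler_close hΓ hS ha hb hC hab E hδ h.1 h.2⟩

end Pool.Agent.Results.MP_731498_gt.NotQuasiLength
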